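import Pool.Agent.Helper49.Conj

set_option autoImplicit false

open Set Filter Topology

namespace Pool.Agent.Results.MP_12d91b_an.SmallLipschitz

/-- `f` is a `C^1` diffeomorphism of the circle `ℝ/ℤ`: the homeomorphism `f` has a lift
`F : ℝ → ℝ` which is of class `C^1` and whose derivative vanishes nowhere. -/
def IsC1Diffeo (f : UnitAddCircle ≃ₜ UnitAddCircle) : Prop :=
  ∃ F : ℝ → ℝ, ContDiff ℝ 1 F ∧ (∀ x, deriv F x ≠ 0) ∧
    ∀ x : ℝ, ((F x : ℝ) : UnitAddCircle) = f (x : UnitAddCircle)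

/-- `f, g` with the points `x, y` form a resilient pair: the six points
`x, f x, f y, g x, g y, y` are distinct and occur in this order along an arc starting at `x`
(they have lifts `a < b < c < d < t < u < a + 1` to the line, in this order). -/
def IsResilientPair (f g : UnitAddCircle ≃ₜ UnitAddCircle) (x y : UnitAddCircle) : Prop :=
  ∃ a b c d t u : ℝ, a < b ∧ b < c ∧ c < d ∧ d < t ∧ t < u ∧ u < a + 1 ∧
    (a : UnitAddCircle) = x ∧ (b : UnitAddCircle) = f x ∧ (c : UnitAddCircle) = f y ∧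
    (d : UnitAddCircle) = g x ∧ (t : UnitAddCircle) = g y ∧ (u : UnitAddCircle) = y

/-- A homeomorphism of the line commuting with the unit translation induces a homeomorphism
of the circle. -/
theorem exists_circle_homeo (H : ℝ ≃ₜ ℝ) (hH : ∀ x, H (x + 1) = H x + 1) :
    ∃ h : UnitAddCircle ≃ₜ UnitAddCircle,
      ∀ x : ℝ, h (x : UnitAddCircle) = ((H x : ℝ) : UnitAddCircle) := by
  have hHs : ∀ x, H.symm (x + 1) = H.symm x + 1 := by
    intro x
    apply H.injective
    rw [hH, H.apply_symm_apply, H.apply_symm_apply]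
  have p1 : Function.Periodic (fun x : ℝ => ((H x : ℝ) : UnitAddCircle)) (1 : ℝ) := by
    intro x
    simp only [hH]
    exact AddCircle.coe_add_period 1 (H x)
  have p2 : Function.Periodic (fun x : ℝ => ((H.symm x : ℝ) : UnitAddCircle)) (1 : ℝ) := by
    intro x
    simp only [hHs]
    exact AddCircle.coe_add_period 1 (H.symm x)
  have c1 : Continuous (p1.lift : UnitAddCircle → UnitAddCircle) := by
    apply (QuotientAddGroup.isQuotientMap_mk _).continuous_iff.2
    exact (AddCircle.continuous_mk' (1 : ℝ)).comp H.continuous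
  have c2 : Continuous (p2.lift : UnitAddCircle → UnitAddCircle) := by
    apply (QuotientAddGroup.isQuotientMap_mk _).continuous_iff.2
    exact (AddCircle.continuous_mk' (1 : ℝ)).comp H.symm.continuous
  refine ⟨⟨⟨p1.lift, p2.lift, ?_, ?_⟩, c1, c2⟩, fun x => rfl⟩
  · intro x
    induction x using QuotientAddGroup.induction_on with
    | H x =>
      show p2.lift (p1.lift ((x : ℝ) : UnitAddCircle)) = _
      show ((H.symm (H x) : ℝ) : UnitAddCircle) = _
      rw [H.symm_apply_apply]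
  · intro x
    induction x using QuotientAddGroup.induction_on with
    | H x =>
      show ((H (H.symm x) : ℝ) : UnitAddCircle) = _
      rw [H.apply_symm_apply]

/-- Real representatives realising the circle distance. -/
theorem exists_rep (a b : UnitAddCircle) : ∃ x y : ℝ, (x : UnitAddCircle) = a ∧
    (y : UnitAddCircle) = b ∧ |x - y| = dist a b := by
  induction a using QuotientAddGroup.induction_on with
  | H x =>
    induction b using QuotientAddGroup.induction_on with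
    | H y =>
      refine ⟨x - round (x - y), y, ?_, rfl, ?_⟩
      · have h1 : ((round (x - y) : ℝ) : UnitAddCircle) = 0 :=
          (AddCircle.coe_eq_zero_iff (1 : ℝ)).2 ⟨round (x - y), by simp⟩
        rw [AddCircle.coe_sub, h1, sub_zero]
      · show _ = dist ((x : ℝ) : UnitAddCircle) ((y : ℝ) : UnitAddCircle)
        rw [dist_eq_norm, ← AddCircle.coe_sub, UnitAddCircle.norm_eq]
        congr 1
        ring

/-- Absence of resilient pairs gives the intersection property for lifts. -/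
theorem nr_of_no_resilient {ι : Type} (Y : Helper49.Sys ι)
    {f : ι → (UnitAddCircle ≃ₜ UnitAddCircle)}
    (hf : ∀ s (x : ℝ), ((Y.F s x : ℝ) : UnitAddCircle) = f s (x : UnitAddCircle))
    (hres : ¬ ∃ g1 ∈ Subgroup.closure (range f), ∃ g2 ∈ Subgroup.closure (range f),
      ∃ x y, IsResilientPair g1 g2 x y) : Y.NR := by
  intro u1 u2 u3 k2 k3 α β hαβ hβ h2 h3
  by_contra hcon
  push Not at hcon
  apply hres
  -- one contraction of the interval, squared
  have key : ∀ (u : List ι) (k : ℤ),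
      (∀ t ∈ Icc α β, Y.W u1 ((Y.W u).symm (t + k)) ∈ Ioo α β) →
      ∃ (Hh : ℝ → ℝ) (g : UnitAddCircle ≃ₜ UnitAddCircle), g ∈ Subgroup.closure (range f) ∧
        (∀ x : ℝ, ((Hh x : ℝ) : UnitAddCircle) = g (x : UnitAddCircle)) ∧ StrictMono Hh ∧
        Continuous Hh ∧ (∀ t ∈ Icc α β, Hh t ∈ Ioo α β) ∧
        ∀ t ∈ Icc α β, ∃ t' ∈ Icc α β, Hh t = Y.W u1 ((Y.W u).symm (t' + k)) := by
    intro u k hk
    obtain ⟨g1, hg1, hg1x⟩ := Y.lifts_word hf u1
    obtain ⟨g2, hg2, hg2x⟩ := Y.lifts_word hf u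
    obtain ⟨Gm, hGm⟩ : ∃ Gm : ℝ → ℝ, Gm = fun t => Y.W u1 ((Y.W u).symm (t + k)) := ⟨_, rfl⟩
    have hGc : Continuous Gm := by
      rw [hGm]
      exact (Y.W u1).continuous.comp
        ((Y.W u).symm.continuous.comp (continuous_add_const (k : ℝ)))
    have hGi : Function.Injective Gm := by
      rw [hGm]
      intro a b hab
      have := (Y.W u).symm.injective ((Y.W u1).injective hab)
      linarith
    have hGl : ∀ x : ℝ, ((Gm x : ℝ) : UnitAddCircle) = (g1 * g2⁻¹) (x : UnitAddCircle) := by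
      intro x
      rw [hGm]
      show ((Y.W u1 ((Y.W u).symm (x + k)) : ℝ) : UnitAddCircle) = g1 (g2.symm (x : UnitAddCircle))
      rw [hg1x]
      congr 1
      rw [Homeomorph.eq_symm_apply, ← hg2x, Homeomorph.apply_symm_apply]
      have h1 : ((k : ℝ) : UnitAddCircle) = 0 :=
        (AddCircle.coe_eq_zero_iff (1 : ℝ)).2 ⟨k, by simp⟩
      rw [AddCircle.coe_add, h1, add_zero]
    refine ⟨fun t => Gm (Gm t), (g1 * g2⁻¹) * (g1 * g2⁻¹),
      Subgroup.mul_mem _ (Subgroup.mul_mem _ hg1 (Subgroup.inv_mem _ hg2))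
        (Subgroup.mul_mem _ hg1 (Subgroup.inv_mem _ hg2)), ?_, ?_, hGc.comp hGc, ?_, ?_⟩
    · intro x
      rw [hGl, hGl]
      rfl
    · rcases hGc.strictMono_of_inj hGi with h | h
      · exact h.comp h
      · exact h.comp h
    · intro t ht
      have h1 : Gm t ∈ Ioo α β := by
        rw [hGm]
        exact hk t ht
      have h2 := hk (Gm t) (Ioo_subset_Icc_self h1)
      have h3 : Gm (Gm t) = Y.W u1 ((Y.W u).symm (Gm t + k)) := by
        conv_lhs => rw [hGm]
        rw [hGm]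
      simp only [h3]
      exact h2
    · intro t ht
      have h1 : Gm t ∈ Ioo α β := by
        rw [hGm]
        exact hk t ht
      refine ⟨Gm t, Ioo_subset_Icc_self h1, ?_⟩
      conv_lhs => rw [hGm]
      rw [hGm]
  obtain ⟨H2, g2, hg2, hl2, hm2, hc2, hi2, hj2⟩ := key u2 k2 h2
  obtain ⟨H3, g3, hg3, hl3, hm3, hc3, hi3, hj3⟩ := key u3 k3 h3
  have hα : α ∈ Icc α β := left_mem_Icc.2 hαβ.le
  have hβm : β ∈ Icc α β := right_mem_Icc.2 hαβ.le
  -- the images are disjoint
  have hdisj : ∀ t2 ∈ Icc α β, ∀ t3 ∈ Icc α β, H2 t2 ≠ H3 t3 := by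
    intro t2 ht2 t3 ht3 heq
    obtain ⟨t2', ht2', e2⟩ := hj2 t2 ht2
    obtain ⟨t3', ht3', e3⟩ := hj3 t3 ht3
    exact hcon t2' ht2' t3' ht3' (by rw [← e2, ← e3, heq])
  have hsep : H2 β < H3 α ∨ H3 β < H2 α := by
    by_contra hcon2
    push Not at hcon2
    have hc : max (H2 α) (H3 α) ∈ Icc (H2 α) (H2 β) :=
      ⟨le_max_left _ _, max_le (hm2 hαβ).le hcon2.1⟩
    have hc' : max (H2 α) (H3 α) ∈ Icc (H3 α) (H3 β) :=
      ⟨le_max_right _ _, max_le hcon2.2 (hm3 hαβ).le⟩
    obtain ⟨t2, ht2, e2⟩ := intermediate_value_Icc hαβ.le hc2.continuousOn hc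
    obtain ⟨t3, ht3, e3⟩ := intermediate_value_Icc hαβ.le hc3.continuousOn hc'
    exact hdisj t2 ht2 t3 ht3 (by rw [e2, e3])
  rcases hsep with h | h
  · exact ⟨g2, hg2, g3, hg3, (α : UnitAddCircle), (β : UnitAddCircle), α, H2 α, H2 β, H3 α,
      H3 β, β, (hi2 α hα).1, hm2 hαβ, h, hm3 hαβ, (hi3 β hβm).2, hβ, rfl, hl2 α, hl2 β,
      hl3 α, hl3 β, rfl⟩
  · exact ⟨g3, hg3, g2, hg2, (α : UnitAddCircle), (β : UnitAddCircle), α, H3 α, H3 β, H2 α,
      H2 β, β, (hi3 α hα).1, hm3 hαβ, h, hm2 hαβ, (hi2 β hβm).2, hβ, rfl, hl3 α, hl3 β,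
      hl2 α, hl2 β, rfl⟩

/-- Main theorem. -/
theorem result (S : Set (UnitAddCircle ≃ₜ UnitAddCircle)) (hfin : S.Finite)
    (hC1 : ∀ s ∈ S, IsC1Diffeo s)
    (hres : ¬ ∃ f ∈ Subgroup.closure S, ∃ g ∈ Subgroup.closure S,
      ∃ x y, IsResilientPair f g x y) :
    ∀ ε > 0, ∃ h : UnitAddCircle ≃ₜ UnitAddCircle, ∀ s ∈ S, ∀ a b : UnitAddCircle,
      dist (h (s (h.symm a))) (h (s (h.symm b))) ≤ Real.exp ε * dist a b := by
  intro ε hε
  have : Finite S := hfin.to_subtype
  obtain ⟨Y, hlift, hdeg, hφ⟩ := Helper49.exists_sys S (fun s => s.1) (fun s => hC1 s.1 s.2)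
  have hNR : Y.NR := nr_of_no_resilient Y hlift (by
    rw [Subtype.range_coe_subtype]
    simpa using hres)
  have hPhi := Y.lintegral_Phi_lt_top hNR (e := ε / 2) (by positivity)
  obtain ⟨H, hH1, hH2⟩ := Y.exists_conj hdeg hφ hPhi
  obtain ⟨h, hh⟩ := exists_circle_homeo H hH1
  refine ⟨h, fun s hs a b => ?_⟩
  obtain ⟨a', b', ha, hb, hab⟩ := exists_rep a b
  have hsymm : ∀ t : ℝ, h.symm (t : UnitAddCircle) = ((H.symm t : ℝ) : UnitAddCircle) := by
    intro t
    rw [Homeomorph.symm_apply_eq, hh, H.apply_symm_apply]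
  have hval : ∀ t : ℝ, h (s (h.symm (t : UnitAddCircle))) =
      ((H (Y.F ⟨s, hs⟩ (H.symm t)) : ℝ) : UnitAddCircle) := by
    intro t
    rw [hsymm, ← hh]
    congr 1
    exact (hlift ⟨s, hs⟩ (H.symm t)).symm
  rw [← ha, ← hb, hval, hval]
  refine (Helper49.coe_dist_le _ _).trans ?_
  refine (hH2 ⟨s, hs⟩ _ _).trans ?_
  rw [H.apply_symm_apply, H.apply_symm_apply, ha, hb, hab]
  apply le_of_eq
  congr 2
  ring

end Pool.Agent.Results.MP_12d91b_an.SmallLipschitz
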